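import Mathlib

/-!
Logarithmic averages: shifts and dilations.
-/

set_option autoImplicit false

namespace Pool.Agent.E8helper15.LP

open Finset

/-- the logarithmic sum -/
noncomputable def LS (g : ℕ → ℝ) (X : ℕ) : ℝ := ∑ n ∈ Icc 1 X, g n / n

lemma LS_add (g h : ℕ → ℝ) (X : ℕ) : LS (fun n => g n + h n) X = LS g X + LS h X := by
  unfold LS
  rw [← sum_add_distrib]
  exact sum_congr rfl fun n _ => add_div _ _ _

lemma LS_smul (c : ℝ) (g : ℕ → ℝ) (X : ℕ) : LS (fun n => c * g n) X = c * LS g X := by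
  unfold LS
  rw [mul_sum]
  exact sum_congr rfl fun n _ => mul_div_assoc _ _ _

lemma LS_sub (g h : ℕ → ℝ) (X : ℕ) : LS (fun n => g n - h n) X = LS g X - LS h X := by
  unfold LS
  rw [← sum_sub_distrib]
  exact sum_congr rfl fun n _ => sub_div _ _ _

lemma LS_mono {g h : ℕ → ℝ} {X : ℕ} (hgh : ∀ n, 1 ≤ n → g n ≤ h n) : LS g X ≤ LS h X := by
  unfold LS
  apply sum_le_sum
  intro n hn
  rw [mem_Icc] at hn
  exact div_le_div_of_nonneg_right (hgh n hn.1) (Nat.cast_nonneg n)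

lemma LS_const (c : ℝ) (X : ℕ) : LS (fun _ => c) X = c * ∑ n ∈ Icc 1 X, (1 : ℝ) / n := by
  unfold LS
  rw [mul_sum]
  exact sum_congr rfl fun n _ => by ring

lemma harm_le (X : ℕ) : ∑ n ∈ Icc 1 X, (1 : ℝ) / n ≤ 1 + Real.log X := by
  have h := harmonic_le_one_add_log X
  rw [harmonic_eq_sum_Icc] at h
  push_cast at h
  refine le_trans (le_of_eq ?_) h
  exact sum_congr rfl fun n _ => by rw [one_div]

/-- the shift by one -/
lemma LS_shift (g : ℕ → ℝ) (B : ℝ) (hg : ∀ n, |g n| ≤ B) (X : ℕ) : |LS (fun n => g (n + 1)) X - LS g X| ≤ 3 * B := by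
  have hB : 0 ≤ B := (abs_nonneg _).trans (hg 0)
  have key : ∀ X : ℕ, LS (fun n => g (n + 1)) X - LS g X =
      ∑ n ∈ Icc 1 X, g (n + 1) * (1 / (n : ℝ) - 1 / (n + 1)) + (g (X + 1) / (X + 1) - g 1) := by
    intro X
    induction X with
    | zero => simp [LS]
    | succ X ih =>
      unfold LS at ih ⊢
      rw [sum_Icc_succ_top (by omega), sum_Icc_succ_top (by omega), sum_Icc_succ_top (by omega)]
      push_cast at ih ⊢
      have e : ∑ n ∈ Icc 1 X, g (n + 1) / (n : ℝ) + g (X + 1 + 1) / ((X : ℝ) + 1) -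
          (∑ n ∈ Icc 1 X, g n / (n : ℝ) + g (X + 1) / ((X : ℝ) + 1)) =
          (∑ n ∈ Icc 1 X, g (n + 1) / (n : ℝ) - ∑ n ∈ Icc 1 X, g n / (n : ℝ)) +
            (g (X + 1 + 1) / ((X : ℝ) + 1) - g (X + 1) / ((X : ℝ) + 1)) := by ring
      rw [e, ih]
      ring
  rw [key]
  have h1 : |∑ n ∈ Icc 1 X, g (n + 1) * (1 / (n : ℝ) - 1 / (n + 1))| ≤ B := by
    have h2 : ∀ X : ℕ, ∑ n ∈ Icc 1 X, (1 / (n : ℝ) - 1 / (n + 1)) = 1 - 1 / ((X : ℝ) + 1) := by
      intro X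
      induction X with
      | zero => simp
      | succ X ih =>
        rw [sum_Icc_succ_top (by omega), ih]
        push_cast
        ring
    calc |∑ n ∈ Icc 1 X, g (n + 1) * (1 / (n : ℝ) - 1 / (n + 1))| ≤
        ∑ n ∈ Icc 1 X, |g (n + 1) * (1 / (n : ℝ) - 1 / (n + 1))| := abs_sum_le_sum_abs _ _
      _ ≤ ∑ n ∈ Icc 1 X, B * (1 / (n : ℝ) - 1 / (n + 1)) := by
        apply sum_le_sum
        intro n hn
        rw [mem_Icc] at hn
        have hn0 : (0 : ℝ) < n := by exact_mod_cast hn.1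
        have h3 : 0 ≤ 1 / (n : ℝ) - 1 / (n + 1) := by
          rw [sub_nonneg]
          exact one_div_le_one_div_of_le hn0 (by linarith)
        rw [abs_mul, abs_of_nonneg h3]
        exact mul_le_mul_of_nonneg_right (hg _) h3
      _ = B * (1 - 1 / ((X : ℝ) + 1)) := by rw [← mul_sum, h2]
      _ ≤ B := by
        have h3 : 0 ≤ 1 / ((X : ℝ) + 1) := by positivity
        nlinarith
  have h4 : |g (X + 1) / ((X : ℝ) + 1)| ≤ B := by
    rw [abs_div, abs_of_pos (by positivity : (0 : ℝ) < (X : ℝ) + 1)]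
    rw [div_le_iff₀ (by positivity)]
    have := hg (X + 1)
    nlinarith [Nat.cast_nonneg (α := ℝ) X]
  have h5 := hg 1
  calc |∑ n ∈ Icc 1 X, g (n + 1) * (1 / (n : ℝ) - 1 / (n + 1)) + (g (X + 1) / (X + 1) - g 1)| ≤
      |∑ n ∈ Icc 1 X, g (n + 1) * (1 / (n : ℝ) - 1 / (n + 1))| + (|g (X + 1) / ((X : ℝ) + 1)| + |g 1|) :=
        (abs_add_le _ _).trans (add_le_add le_rfl (abs_sub _ _))
    _ ≤ 3 * B := by linarith

/-- one block of the dilation -/
lemma block (g : ℕ → ℝ) (B : ℝ) (hg : ∀ n, |g n| ≤ B) (p n : ℕ) (hp : 1 ≤ p) (hn : 1 ≤ n) :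
    |(p : ℝ) * ∑ m ∈ Ico (p * n) (p * (n + 1)), g m / m - (∑ r ∈ range p, g (p * n + r)) / n| ≤ p * B / (n * n) := by
  have hB : 0 ≤ B := (abs_nonneg _).trans (hg 0)
  have hn0 : (0 : ℝ) < n := by exact_mod_cast hn
  have hp0 : (0 : ℝ) < p := by exact_mod_cast hp
  have e1 : Ico (p * n) (p * (n + 1)) = Ico (p * n) (p * n + p) := by rw [mul_add, mul_one]
  rw [e1, sum_Ico_eq_sum_range, Nat.add_sub_cancel_left, mul_sum, sum_div, ← sum_sub_distrib]
  refine (abs_sum_le_sum_abs _ _).trans ?_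
  have h1 : ∀ r ∈ range p, |(p : ℝ) * (g (p * n + r) / ((p * n + r : ℕ) : ℝ)) - g (p * n + r) / n| ≤ B / (n * n) := by
    intro r hr
    rw [mem_range] at hr
    have hr0 : (r : ℝ) ≤ p := by exact_mod_cast hr.le
    have hr1 : (0 : ℝ) ≤ r := Nat.cast_nonneg r
    have hpos : (0 : ℝ) < (p : ℝ) * n + r := by positivity
    have e2 : (p : ℝ) * (g (p * n + r) / ((p * n + r : ℕ) : ℝ)) - g (p * n + r) / n =
        g (p * n + r) * (-(r / (n * (p * n + r)))) := by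
      push_cast
      field_simp
      ring
    rw [e2, abs_mul, abs_neg, abs_of_nonneg (by positivity : 0 ≤ (r : ℝ) / (n * (p * n + r)))]
    have e3 : (r : ℝ) / (n * (p * n + r)) ≤ 1 / (n * n) := by
      rw [div_le_div_iff₀ (by positivity) (by positivity)]
      have h4 : (r : ℝ) * n ≤ p * n := mul_le_mul_of_nonneg_right hr0 hn0.le
      nlinarith
    calc |g (p * n + r)| * ((r : ℝ) / (n * (p * n + r))) ≤ B * (1 / (n * n)) :=
          mul_le_mul (hg _) e3 (by positivity) hB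
      _ = B / (n * n) := by ring
  refine (sum_le_sum h1).trans (le_of_eq ?_)
  rw [sum_const, card_range, nsmul_eq_mul]
  ring

lemma sum_sq (X : ℕ) : ∑ n ∈ Icc 1 X, (1 : ℝ) / (n * n) ≤ 2 := by
  have h : ∀ X : ℕ, ∑ n ∈ Icc 1 (X + 1), (1 : ℝ) / (n * n) ≤ 2 - 1 / ((X : ℝ) + 1) := by
    intro X
    induction X with
    | zero => norm_num
    | succ X ih =>
      rw [sum_Icc_succ_top (by omega)]
      have h1 : (1 : ℝ) / (((X + 1 + 1 : ℕ) : ℝ) * ((X + 1 + 1 : ℕ) : ℝ)) ≤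
          1 / ((X : ℝ) + 1) - 1 / (((X + 1 : ℕ) : ℝ) + 1) := by
        push_cast
        have h2 : (0 : ℝ) < (X : ℝ) + 1 := by positivity
        rw [div_sub_div _ _ (by positivity) (by positivity), div_le_div_iff₀ (by positivity) (by positivity)]
        nlinarith
      linarith
  rcases X with _ | X
  · simp
  · have := h X
    have h2 : (0 : ℝ) ≤ 1 / ((X : ℝ) + 1) := by positivity
    linarith

/-- dilations -/
lemma LS_dil (g : ℕ → ℝ) (B : ℝ) (hg : ∀ n, |g n| ≤ B) (p : ℕ) (hp : 1 ≤ p) (X : ℕ) :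
    |(p : ℝ) * LS g X - LS (fun n => ∑ r ∈ range p, g (p * n + r)) X| ≤ 2 * p * p * B + 2 * p * B := by
  have hB : 0 ≤ B := (abs_nonneg _).trans (hg 0)
  have hp0 : (1 : ℝ) ≤ p := by exact_mod_cast hp
  -- the blocks
  have h1 : ∀ X : ℕ, ∑ m ∈ Ico p (p * (X + 1)), g m / m = ∑ n ∈ Icc 1 X, ∑ m ∈ Ico (p * n) (p * (n + 1)), g m / m := by
    intro X
    induction X with
    | zero => simp
    | succ X ih =>
      rw [sum_Icc_succ_top (by omega), ← ih]
      rw [sum_Ico_consecutive _ (by nlinarith) (by nlinarith)]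
  have h2 : |(p : ℝ) * ∑ m ∈ Ico p (p * (X + 1)), g m / m - LS (fun n => ∑ r ∈ range p, g (p * n + r)) X| ≤ 2 * p * B := by
    rw [h1, mul_sum]
    unfold LS
    rw [← sum_sub_distrib]
    refine (abs_sum_le_sum_abs _ _).trans ?_
    refine (sum_le_sum (g := fun n : ℕ => (p : ℝ) * B * (1 / (n * n))) fun n hn => ?_).trans ?_
    · rw [mem_Icc] at hn
      refine (block g B hg p n hp hn.1).trans (le_of_eq (by ring))
    · rw [← mul_sum]
      have := sum_sq X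
      have h3 : 0 ≤ (p : ℝ) * B := by positivity
      nlinarith
  have h3 : LS g X = ∑ m ∈ Ico 1 (X + 1), g m / m := by
    unfold LS
    rfl
  have h4 : (∑ m ∈ Ico 1 (X + 1), g m / m) + ∑ m ∈ Ico (X + 1) (p * (X + 1)), g m / m =
      (∑ m ∈ Ico 1 p, g m / m) + ∑ m ∈ Ico p (p * (X + 1)), g m / m := by
    rw [sum_Ico_consecutive _ (by omega) (by nlinarith), sum_Ico_consecutive _ hp (by nlinarith)]
  have h5 : |∑ m ∈ Ico 1 p, g m / m| ≤ p * B := by
    refine (abs_sum_le_sum_abs _ _).trans ((sum_le_sum (g := fun _ => B) fun m hm => ?_).trans ?_)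
    · rw [mem_Ico] at hm
      have hm1 : (1 : ℝ) ≤ m := by exact_mod_cast hm.1
      rw [abs_div, Nat.abs_cast]
      refine (div_le_self (abs_nonneg _) hm1).trans (hg m)
    · rw [sum_const, Nat.card_Ico, nsmul_eq_mul]
      apply mul_le_mul_of_nonneg_right _ hB
      exact_mod_cast Nat.sub_le _ _
  have h6 : |∑ m ∈ Ico (X + 1) (p * (X + 1)), g m / m| ≤ p * B := by
    refine (abs_sum_le_sum_abs _ _).trans ((sum_le_sum (g := fun _ => B / ((X : ℝ) + 1)) fun m hm => ?_).trans ?_)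
    · rw [mem_Ico] at hm
      have hm1 : ((X : ℝ) + 1) ≤ m := by exact_mod_cast hm.1
      rw [abs_div, Nat.abs_cast]
      exact div_le_div₀ hB (hg m) (by positivity) hm1
    · rw [sum_const, Nat.card_Ico, nsmul_eq_mul]
      have h7 : ((p * (X + 1) - (X + 1) : ℕ) : ℝ) ≤ p * (X + 1) := by
        calc ((p * (X + 1) - (X + 1) : ℕ) : ℝ) ≤ ((p * (X + 1) : ℕ) : ℝ) := by exact_mod_cast Nat.sub_le _ _
          _ = p * (X + 1) := by push_cast; ring
      calc ((p * (X + 1) - (X + 1) : ℕ) : ℝ) * (B / ((X : ℝ) + 1)) ≤ (p * ((X : ℝ) + 1)) * (B / ((X : ℝ) + 1)) :=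
            mul_le_mul_of_nonneg_right h7 (by positivity)
        _ = p * B := by field_simp
  have h7 : (p : ℝ) * LS g X - LS (fun n => ∑ r ∈ range p, g (p * n + r)) X =
      ((p : ℝ) * ∑ m ∈ Ico p (p * (X + 1)), g m / m - LS (fun n => ∑ r ∈ range p, g (p * n + r)) X) +
      p * ((∑ m ∈ Ico 1 p, g m / m) - ∑ m ∈ Ico (X + 1) (p * (X + 1)), g m / m) := by
    rw [h3]
    have : ∑ m ∈ Ico 1 (X + 1), g m / (m : ℝ) = (∑ m ∈ Ico 1 p, g m / (m : ℝ)) +
      (∑ m ∈ Ico p (p * (X + 1)), g m / (m : ℝ)) - ∑ m ∈ Ico (X + 1) (p * (X + 1)), g m / (m : ℝ) := by linarith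
    rw [this]
    ring
  rw [h7]
  refine (abs_add_le _ _).trans ?_
  rw [abs_mul, abs_of_nonneg (by linarith : (0 : ℝ) ≤ p)]
  have h8 := abs_sub (∑ m ∈ Ico 1 p, g m / (m : ℝ)) (∑ m ∈ Ico (X + 1) (p * (X + 1)), g m / (m : ℝ))
  have h9 : (p : ℝ) * |(∑ m ∈ Ico 1 p, g m / (m : ℝ)) - ∑ m ∈ Ico (X + 1) (p * (X + 1)), g m / (m : ℝ)| ≤
      p * (p * B + p * B) := mul_le_mul_of_nonneg_left (by linarith) (by linarith)
  nlinarith

end Pool.Agent.E8helper15.LP
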