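import Pool.Agent.E8helper15.LP.Avg
import Pool.Agent.Y958.TC.Two
import Pool.Agent.Y958.U.Fin
import Pool.Agent.Y958.U.Diag

/-!
The two point theorem in the form of logarithmic averages along `6 n + i`, `6 n + j`.
-/

set_option autoImplicit false

namespace Pool.Agent.E8helper15.LP

open Finset
open Pool.Agent.H376R2.MR (lam)
open Pool.Agent.TH823.MRS (ExpoSmall expo_lam lam_bdd lam_flip)
open Pool.Agent.Y958.U (LZ s_avc LZ_iff ls li ls_eq li_mem li_not abel_log ls_nonneg)
open Pool.Agent.Y958.TC (two Av)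

/-- small at most scales implies small logarithmic average -/
lemma log_small (F : ℕ → ℝ) (hF : ∀ n, |F n| ≤ 1) (h : ∀ δ : ℝ, 0 < δ → LZ {N | δ < |Av N F|}) (ε : ℝ) (hε : 0 < ε) :
    ∃ X₀ : ℕ, ∀ X : ℕ, X₀ ≤ X → |LS F X| ≤ ε * Real.log X := by
  classical
  set E : Set ℕ := {N | ε / 4 < |Av N F|} with hE
  obtain ⟨X₁, hX₁⟩ := (LZ_iff E).1 (h (ε / 4) (by positivity)) (ε / 4) (by positivity)
  have hlog : Filter.Tendsto (fun X : ℕ => Real.log X) Filter.atTop Filter.atTop :=
    Real.tendsto_log_atTop.comp tendsto_natCast_atTop_atTop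
  obtain ⟨X₂, hX₂⟩ := Filter.eventually_atTop.1 (hlog.eventually_ge_atTop ((6 + ε) * 4 / ε))
  refine ⟨X₁ + X₂ + 2, fun X hX => ?_⟩
  have h1 := hX₁ X (by omega)
  have h2 := hX₂ X (by omega)
  have hS : ∀ N : ℕ, |∑ n ∈ Icc 1 N, F n| ≤ N := by
    intro N
    refine (abs_sum_le_sum_abs _ _).trans ((sum_le_sum fun k _ => hF _).trans (le_of_eq ?_))
    simp
  unfold LS
  rw [abel_log]
  have h3 : |(∑ n ∈ Icc 1 X, F n) / ((X : ℝ) + 1)| ≤ 1 := by
    rw [abs_div, abs_of_pos (by positivity : (0 : ℝ) < (X : ℝ) + 1), div_le_one (by positivity)]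
    have := hS X
    linarith
  have h4 : |∑ N ∈ Icc 1 X, (∑ n ∈ Icc 1 N, F n) * (1 / ((N : ℝ) * (N + 1)))| ≤
      ε / 4 * (1 + Real.log X) + 4 + ls E X := by
    refine (abs_sum_le_sum_abs _ _).trans ?_
    have h5 : ∀ N ∈ Icc 1 X, |(∑ n ∈ Icc 1 N, F n) * (1 / ((N : ℝ) * (N + 1)))| ≤
        ε / 4 * (1 / (N : ℝ)) + 2 * (1 / ((N : ℝ) * N)) + li E N := by
      intro N hN
      rw [mem_Icc] at hN
      have hN0 : (0 : ℝ) < N := by exact_mod_cast (by omega : 0 < N)
      have e1 : (0 : ℝ) < 1 / ((N : ℝ) * (N + 1)) := by positivity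
      rw [abs_mul, abs_of_pos e1]
      have e2 : 1 / ((N : ℝ) * (N + 1)) ≤ 1 / ((N : ℝ) * N) :=
        one_div_le_one_div_of_le (by positivity) (by nlinarith)
      have e3 : (N : ℝ) * (1 / ((N : ℝ) * N)) = 1 / N := by field_simp
      by_cases hNE : N ∈ E
      · rw [li_mem hNE]
        have h6 : |∑ n ∈ Icc 1 N, F n| * (1 / ((N : ℝ) * (N + 1))) ≤ N * (1 / ((N : ℝ) * N)) :=
          mul_le_mul (hS N) e2 e1.le hN0.le
        have h7 : 0 ≤ ε / 4 * (1 / (N : ℝ)) + 2 * (1 / ((N : ℝ) * N)) := by positivity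
        linarith
      · rw [li_not hNE, add_zero]
        have h6 : |Av N F| ≤ ε / 4 := by
          rw [hE, Set.mem_ofPred_eq] at hNE
          exact not_lt.1 hNE
        have h7 : ∑ n ∈ Icc 1 N, F n = ∑ n ∈ range N, F n + (F N - F 0) := by
          have e4 : ∀ N : ℕ, ∑ n ∈ Icc 1 N, F n = ∑ n ∈ range N, F n + (F N - F 0) := by
            intro N
            induction N with
            | zero => simp
            | succ N ih =>
              rw [sum_Icc_succ_top (by omega), ih, sum_range_succ]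
              ring
          exact e4 N
        have h8 : |∑ n ∈ Icc 1 N, F n| ≤ ε / 4 * N + 2 := by
          rw [h7]
          have h9 : ∑ n ∈ range N, F n = N * Av N F := by
            unfold Av
            field_simp
          rw [h9]
          refine (abs_add_le _ _).trans ?_
          rw [abs_mul, Nat.abs_cast]
          have h10 := abs_sub (F N) (F 0)
          have h11 := hF N
          have h12 := hF 0
          have h13 : (N : ℝ) * |Av N F| ≤ N * (ε / 4) := mul_le_mul_of_nonneg_left h6 hN0.le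
          linarith
        calc |∑ n ∈ Icc 1 N, F n| * (1 / ((N : ℝ) * (N + 1))) ≤ (ε / 4 * N + 2) * (1 / ((N : ℝ) * N)) :=
              mul_le_mul h8 e2 e1.le (by positivity)
          _ = ε / 4 * (N * (1 / ((N : ℝ) * N))) + 2 * (1 / ((N : ℝ) * N)) := by ring
          _ = ε / 4 * (1 / (N : ℝ)) + 2 * (1 / ((N : ℝ) * N)) := by rw [e3]
    refine (sum_le_sum h5).trans ?_
    rw [sum_add_distrib, sum_add_distrib, ← mul_sum, ← mul_sum, ← ls_eq]
    have h6 := harm_le X
    have h7 := sum_sq X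
    have h8 : ε / 4 * ∑ n ∈ Icc 1 X, (1 : ℝ) / n ≤ ε / 4 * (1 + Real.log X) :=
      mul_le_mul_of_nonneg_left h6 (by positivity)
    linarith
  have h5 := abs_add_le (∑ N ∈ Icc 1 X, (∑ n ∈ Icc 1 N, F n) * (1 / ((N : ℝ) * (N + 1))))
    ((∑ n ∈ Icc 1 X, F n) / ((X : ℝ) + 1))
  have h6 : 6 + ε ≤ ε / 4 * Real.log X := by
    have := mul_le_mul_of_nonneg_left h2 (by positivity : 0 ≤ ε / 4)
    have e : ε / 4 * ((6 + ε) * 4 / ε) = 6 + ε := by field_simp
    linarith
  linarith

/-- the two point theorem along `6 n + i`, `6 n + j` -/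
theorem two_log (i j : ℕ) (hi : i < 6) (hij : i < j) (ε : ℝ) (hε : 0 < ε) :
    ∃ X₀ : ℕ, ∀ X : ℕ, X₀ ≤ X → |LS (fun n => (lam (6 * n + i) : ℝ) * lam (6 * n + j)) X| ≤ ε * Real.log X := by
  set w : ℕ → ℝ := fun n => if n % 6 = i then 1 else 0 with hw
  set F : ℕ → ℝ := fun n => w n * lam n * lam (n + (j - i)) with hFd
  have hE : ExpoSmall (fun n => (lam n : ℂ)) := fun ε hε A hA => expo_lam ε hε A hA
  have hlam : ∀ n, |(lam n : ℝ)| ≤ 1 := fun n => by exact_mod_cast lam_bdd n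
  have hF : ∀ n, |F n| ≤ 1 := by
    intro n
    rw [hFd]
    simp only [abs_mul]
    have h1 : |w n| ≤ 1 := by
      rw [hw]
      dsimp only
      split_ifs <;> simp
    have h2 := hlam n
    have h3 := hlam (n + (j - i))
    calc |w n| * |(lam n : ℝ)| * |(lam (n + (j - i)) : ℝ)| ≤ 1 * 1 * 1 := by gcongr
      _ = 1 := by norm_num
  have hsmall : ∀ δ : ℝ, 0 < δ → LZ {N | δ < |Av N F|} := by
    intro δ hδ
    exact two s_avc lam lam_bdd lam_flip hE (j - i) (by omega) 6 (by norm_num) w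
      (by intro n; rw [hw]; dsimp only; split_ifs <;> simp)
      (by intro n; rw [hw]; dsimp only; rw [Nat.add_mod_right]) δ hδ
  obtain ⟨X₁, hX₁⟩ := log_small F hF hsmall (ε / 12) (by positivity)
  have hlog : Filter.Tendsto (fun X : ℕ => Real.log X) Filter.atTop Filter.atTop :=
    Real.tendsto_log_atTop.comp tendsto_natCast_atTop_atTop
  obtain ⟨X₂, hX₂⟩ := Filter.eventually_atTop.1 (hlog.eventually_ge_atTop (84 * 2 / ε))
  refine ⟨X₁ + X₂, fun X hX => ?_⟩
  have h1 := hX₁ X (by omega)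
  have h2 := hX₂ X (by omega)
  have h3 := LS_dil F 1 hF 6 (by norm_num) X
  have h4 : (fun n => ∑ r ∈ range 6, F (6 * n + r)) = fun n => (lam (6 * n + i) : ℝ) * lam (6 * n + j) := by
    funext n
    rw [sum_eq_single_of_mem i (mem_range.2 hi)]
    · rw [hFd, hw]
      dsimp only
      rw [if_pos (by omega), show 6 * n + i + (j - i) = 6 * n + j by omega]
      ring
    · intro r hr hri
      rw [mem_range] at hr
      rw [hFd, hw]
      dsimp only
      rw [if_neg (by omega)]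
      ring
  rw [h4] at h3
  norm_num at h3
  have h5 : 84 ≤ ε / 2 * Real.log X := by
    have := mul_le_mul_of_nonneg_left h2 (by positivity : 0 ≤ ε / 2)
    have e : ε / 2 * (84 * 2 / ε) = 84 := by field_simp
    linarith
  rw [abs_le] at h1 h3 ⊢
  constructor <;> linarith

end Pool.Agent.E8helper15.LP
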