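import Pool.Agent.E8helper15.LP.Sound
import Pool.Agent.E8helper15.LP.Two

/-!
The logarithmic average of the product of four consecutive values of the Liouville function.
-/

set_option autoImplicit false

namespace Pool.Agent.E8helper15.LP

open Finset
open Pool.Agent.H376R2.MR (lam)
open Pool.Agent.Y958.U (abel_log)

lemma lam_pm (m : ℕ) : lam m = 1 ∨ lam m = -1 := neg_one_pow_eq_or ℤ _

lemma lam_prime (p : ℕ) (hp : p.Prime) (m : ℕ) (hm : 1 ≤ m) : lam (p * m) = -lam m := by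
  unfold lam
  rw [ArithmeticFunction.cardFactors_mul hp.ne_zero (by omega), ArithmeticFunction.cardFactors_apply_prime hp, pow_add,
    pow_one]
  ring

/-- the logarithmic average tends to zero -/
def Sm (g : ℕ → ℝ) : Prop := ∀ ε : ℝ, 0 < ε → ∃ X₀ : ℕ, ∀ X : ℕ, X₀ ≤ X → |LS g X| ≤ ε * Real.log X

lemma Sm_bdd (g : ℕ → ℝ) (C : ℝ) (h : ∀ X, |LS g X| ≤ C) : Sm g := by
  intro ε hε
  have hlog : Filter.Tendsto (fun X : ℕ => Real.log X) Filter.atTop Filter.atTop :=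
    Real.tendsto_log_atTop.comp tendsto_natCast_atTop_atTop
  obtain ⟨X₂, hX₂⟩ := Filter.eventually_atTop.1 (hlog.eventually_ge_atTop (C / ε))
  refine ⟨X₂, fun X hX => (h X).trans ?_⟩
  have := hX₂ X hX
  rw [div_le_iff₀ hε] at this
  linarith

lemma Sm_zero : Sm (fun _ => 0) := Sm_bdd _ 0 fun X => by simp [LS]

lemma Sm_add {g h : ℕ → ℝ} (hg : Sm g) (hh : Sm h) : Sm (fun n => g n + h n) := by
  intro ε hε
  obtain ⟨X₁, h1⟩ := hg (ε / 2) (by positivity)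
  obtain ⟨X₂, h2⟩ := hh (ε / 2) (by positivity)
  refine ⟨X₁ + X₂, fun X hX => ?_⟩
  rw [LS_add]
  refine (abs_add_le _ _).trans ?_
  have := h1 X (by omega)
  have := h2 X (by omega)
  linarith

lemma Sm_smul {g : ℕ → ℝ} (c : ℝ) (hg : Sm g) : Sm (fun n => c * g n) := by
  intro ε hε
  obtain ⟨X₁, h1⟩ := hg (ε / (|c| + 1)) (by positivity)
  refine ⟨X₁ + 1, fun X hX => ?_⟩
  rw [LS_smul, abs_mul]
  have h2 := h1 X (by omega)
  have hc := abs_nonneg c
  have hl : 0 ≤ Real.log X := Real.log_nonneg (by exact_mod_cast (by omega : 1 ≤ X))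
  calc |c| * |LS g X| ≤ |c| * (ε / (|c| + 1) * Real.log X) := mul_le_mul_of_nonneg_left h2 hc
    _ = (|c| / (|c| + 1)) * (ε * Real.log X) := by ring
    _ ≤ 1 * (ε * Real.log X) := by
        apply mul_le_mul_of_nonneg_right _ (by positivity)
        rw [div_le_one (by positivity)]
        linarith
    _ = ε * Real.log X := one_mul _

lemma Sm_list {α : Type} (f : α → ℕ → ℝ) (l : List α) (h : ∀ y ∈ l, Sm (f y)) :
    Sm (fun n => (l.map (fun y => f y n)).sum) := by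
  induction l with
  | nil => simpa using Sm_zero
  | cons y l ih =>
    simp only [List.map_cons, List.sum_cons]
    exact Sm_add (h y (by simp)) (ih fun z hz => h z (by simp [hz]))

/-- the quadratic form, real valued -/
noncomputable def qr (n : ℕ) : ℝ :=
  (Q1.map (fun y => ((y.2.2.1 : ℝ) - y.2.2.2) * ((lam (6 * n + y.1) : ℝ) * lam (6 * n + y.2.1)))).sum +
  (Y10.map (fun y => ((y.2.1 : ℝ) - y.2.2) * ((lam (6 * n + y.1) : ℝ) * lam (6 * n + 10)))).sum +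
  (Y11.map (fun y => ((y.2.1 : ℝ) - y.2.2) * ((lam (6 * n + y.1) : ℝ) * lam (6 * n + 11)))).sum +
  (Y12.map (fun y => ((y.2.1 : ℝ) - y.2.2) * ((lam (6 * n + y.1) : ℝ) * lam (6 * n + 12)))).sum +
  (Y14.map (fun y => ((y.2.1 : ℝ) - y.2.2) * ((lam (6 * n + y.1) : ℝ) * lam (6 * n + 14)))).sum +
  (Y15.map (fun y => ((y.2.1 : ℝ) - y.2.2) * ((lam (6 * n + y.1) : ℝ) * lam (6 * n + 15)))).sum +
  (Y16.map (fun y => ((y.2.1 : ℝ) - y.2.2) * ((lam (6 * n + y.1) : ℝ) * lam (6 * n + 16)))).sum +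
  (Y18.map (fun y => ((y.2.1 : ℝ) - y.2.2) * ((lam (6 * n + y.1) : ℝ) * lam (6 * n + 18)))).sum

lemma cast_sum {α : Type} (f : α → ℤ) (l : List α) :
    (((l.map f).sum : ℤ) : ℝ) = (l.map (fun y => ((f y : ℤ) : ℝ))).sum := by
  induction l with
  | nil => simp
  | cons a l ih => simp [ih]

lemma qf_cast (n : ℕ) : ((qf lam (6 * n) : ℤ) : ℝ) = qr n := by
  unfold qf qr
  simp only [Int.cast_add, cast_sum, Int.cast_mul, Int.cast_sub, Int.cast_natCast]

lemma two_Sm (i j : ℕ) (hi : i < 6) (hij : i < j) : Sm (fun n => (lam (6 * n + i) : ℝ) * lam (6 * n + j)) :=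
  fun ε hε => two_log i j hi hij ε hε

lemma lin_Sm (l : List (ℕ × ℕ × ℕ)) (j : ℕ) (hl : ∀ y ∈ l, y.1 < 6) (hj : 6 ≤ j) :
    Sm (fun n => (l.map (fun y => ((y.2.1 : ℝ) - y.2.2) * ((lam (6 * n + y.1) : ℝ) * lam (6 * n + j)))).sum) :=
  Sm_list _ l fun y hy => Sm_smul _ (two_Sm y.1 j (hl y hy) (lt_of_lt_of_le (hl y hy) hj))

lemma qr_Sm : Sm qr := by
  have h1 : Sm (fun n => (Q1.map (fun y => ((y.2.2.1 : ℝ) - y.2.2.2) *
      ((lam (6 * n + y.1) : ℝ) * lam (6 * n + y.2.1)))).sum) := by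
    apply Sm_list
    intro y hy
    have hd : ∀ y ∈ Q1, y.1 < 6 ∧ y.1 < y.2.1 := by decide
    exact Sm_smul _ (two_Sm y.1 y.2.1 (hd y hy).1 (hd y hy).2)
  exact Sm_add (Sm_add (Sm_add (Sm_add (Sm_add (Sm_add (Sm_add h1
    (lin_Sm Y10 10 (by decide) (by norm_num))) (lin_Sm Y11 11 (by decide) (by norm_num)))
    (lin_Sm Y12 12 (by decide) (by norm_num))) (lin_Sm Y14 14 (by decide) (by norm_num)))
    (lin_Sm Y15 15 (by decide) (by norm_num))) (lin_Sm Y16 16 (by decide) (by norm_num)))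
    (lin_Sm Y18 18 (by decide) (by norm_num))

lemma tab_le (T i : ℕ) : |(tab T i : ℝ)| ≤ 1048576 := by
  rw [Nat.abs_cast]
  have h : tab T i ≤ 1048576 := by
    unfold tab
    have h1 : Nat.land (Nat.shiftRight T (Nat.mul 20 i)) 1048575 ≤ 1048575 := Nat.and_le_right
    omega
  exact_mod_cast h

/-- the product of four consecutive values -/
def P4 (n : ℕ) : ℤ := lam n * lam (n + 1) * lam (n + 2) * lam (n + 3)

lemma P4_le (n : ℕ) : |(P4 n : ℝ)| ≤ 1 := by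
  have h : ∀ m, |(lam m : ℝ)| = 1 := by
    intro m
    rcases lam_pm m with h | h <;> rw [h] <;> norm_num
  unfold P4
  push_cast
  rw [abs_mul, abs_mul, abs_mul, h, h, h, h]
  norm_num

noncomputable def gU (n : ℕ) : ℝ := (tab U (IA lam (6 * n)) : ℝ)
noncomputable def g2 (n : ℕ) : ℝ := (tab V2 (I10 lam (3 * n)) : ℝ)
noncomputable def g3 (n : ℕ) : ℝ := (tab V3 (I7 lam (2 * n)) : ℝ)

lemma point_real (n : ℕ) (hn : 1 ≤ n) :
    20000 * ∑ r ∈ range 6, (P4 (6 * n + r) : ℝ) ≤ 56802 + (qr n + ((gU (n + 1) - gU n) +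
      ((2 * g2 n - ∑ r ∈ range 2, g2 (2 * n + r)) + (3 * g3 n - ∑ r ∈ range 3, g3 (3 * n + r))))) := by
  have h := pointwise lam_pm (fun m hm => lam_prime 2 Nat.prime_two m hm)
    (fun m hm => lam_prime 3 Nat.prime_three m hm) n hn
  have h' : ((20000 * ∑ r ∈ Finset.range 6, lam (6 * n + r) * lam (6 * n + r + 1) * lam (6 * n + r + 2) * lam (6 * n + r + 3) : ℤ) : ℝ) ≤
      ((56802 + qf lam (6 * n) + ((tab U (IA lam (6 * (n + 1))) : ℤ) - tab U (IA lam (6 * n))) +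
      (2 * (tab V2 (I10 lam (3 * n)) : ℤ) - tab V2 (I10 lam (6 * n)) - tab V2 (I10 lam (6 * n + 3))) +
      (3 * (tab V3 (I7 lam (2 * n)) : ℤ) - tab V3 (I7 lam (6 * n)) - tab V3 (I7 lam (6 * n + 2)) -
        tab V3 (I7 lam (6 * n + 4))) : ℤ) : ℝ) := by exact_mod_cast h
  have e1 : ((20000 * ∑ r ∈ Finset.range 6, lam (6 * n + r) * lam (6 * n + r + 1) * lam (6 * n + r + 2) * lam (6 * n + r + 3) : ℤ) : ℝ) =
      20000 * ∑ r ∈ range 6, (P4 (6 * n + r) : ℝ) := by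
    unfold P4
    push_cast
    rfl
  rw [e1] at h'
  refine h'.trans (le_of_eq ?_)
  rw [← qf_cast]
  unfold gU g2 g3
  simp only [sum_range_succ, sum_range_zero, zero_add, Nat.add_zero]
  rw [show 3 * (2 * n) = 6 * n by omega, show 3 * (2 * n + 1) = 6 * n + 3 by omega, show 2 * (3 * n) = 6 * n by omega,
    show 2 * (3 * n + 1) = 6 * n + 2 by omega, show 2 * (3 * n + 2) = 6 * n + 4 by omega]
  push_cast
  ring

lemma shift_Sm (g : ℕ → ℝ) (B : ℝ) (hg : ∀ n, |g n| ≤ B) : Sm (fun n => g (n + 1) - g n) :=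
  Sm_bdd _ (3 * B) fun X => by
    rw [LS_sub]
    exact LS_shift g B hg X

lemma dil_Sm (g : ℕ → ℝ) (B : ℝ) (hg : ∀ n, |g n| ≤ B) (p : ℕ) (hp : 1 ≤ p) :
    Sm (fun n => (p : ℝ) * g n - ∑ r ∈ range p, g (p * n + r)) :=
  Sm_bdd _ (2 * p * p * B + 2 * p * B) fun X => by
    rw [LS_sub, LS_smul]
    exact LS_dil g B hg p hp X

/-- **The logarithmic average of four consecutive values.** -/
theorem four_log : ∃ X₀ : ℕ, ∀ X : ℕ, X₀ ≤ X → LS (fun n => (P4 n : ℝ)) X ≤ 0.47336 * Real.log X := by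
  have hS : Sm (fun n => qr n + ((gU (n + 1) - gU n) +
      ((2 * g2 n - ∑ r ∈ range 2, g2 (2 * n + r)) + (3 * g3 n - ∑ r ∈ range 3, g3 (3 * n + r))))) := by
    refine Sm_add qr_Sm (Sm_add (shift_Sm gU _ fun n => tab_le _ _) (Sm_add ?_ ?_))
    · have := dil_Sm g2 _ (fun n => tab_le _ _) 2 (by norm_num)
      simpa using this
    · have := dil_Sm g3 _ (fun n => tab_le _ _) 3 (by norm_num)
      simpa using this
  obtain ⟨X₁, hX₁⟩ := hS 1 (by norm_num)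
  have hlog : Filter.Tendsto (fun X : ℕ => Real.log X) Filter.atTop Filter.atTop :=
    Real.tendsto_log_atTop.comp tendsto_natCast_atTop_atTop
  obtain ⟨X₂, hX₂⟩ := Filter.eventually_atTop.1 (hlog.eventually_ge_atTop (10000000 : ℝ))
  refine ⟨X₁ + X₂, fun X hX => ?_⟩
  have h1 := hX₁ X (by omega)
  have h2 := hX₂ X (by omega)
  have h3 : LS (fun n => 20000 * ∑ r ∈ range 6, (P4 (6 * n + r) : ℝ)) X ≤
      LS (fun n => 56802 + (qr n + ((gU (n + 1) - gU n) +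
      ((2 * g2 n - ∑ r ∈ range 2, g2 (2 * n + r)) + (3 * g3 n - ∑ r ∈ range 3, g3 (3 * n + r)))))) X :=
    LS_mono fun n hn => point_real n hn
  rw [LS_smul, LS_add, LS_const] at h3
  have h4 := LS_dil (fun n => (P4 n : ℝ)) 1 P4_le 6 (by norm_num) X
  norm_num at h4
  have h5 := harm_le X
  rw [abs_le] at h1 h4
  linarith [h1.2, h4.2]

/-- partial summation -/
lemma LS_abel (g : ℕ → ℝ) (X : ℕ) : LS g X = ∑ N ∈ Icc 1 X, (∑ n ∈ Icc 1 N, g n) * (1 / ((N : ℝ) * (N + 1))) +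
    (∑ n ∈ Icc 1 X, g n) / (X + 1) := abel_log g X

/-- the partial sums are infinitely often small -/
theorem four_liminf (N₀ : ℕ) : ∃ N : ℕ, N₀ ≤ N ∧ ∑ n ∈ Icc 1 N, (P4 n : ℝ) ≤ 0.4734 * N := by
  by_contra hcon
  push Not at hcon
  obtain ⟨X₁, hX₁⟩ := four_log
  have hlog : Filter.Tendsto (fun X : ℕ => Real.log X) Filter.atTop Filter.atTop :=
    Real.tendsto_log_atTop.comp tendsto_natCast_atTop_atTop
  -- the terms
  have h1 : ∀ N : ℕ, -(N : ℝ) ≤ ∑ n ∈ Icc 1 N, (P4 n : ℝ) := by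
    intro N
    have h : |∑ n ∈ Icc 1 N, (P4 n : ℝ)| ≤ N := by
      refine (abs_sum_le_sum_abs _ _).trans ((sum_le_sum fun k _ => P4_le _).trans (le_of_eq ?_))
      simp
    exact (abs_le.1 h).1
  have h2 : ∀ N : ℕ, 1 ≤ N → 0.4734 * (1 / (N : ℝ)) - 0.4734 * (1 / ((N : ℝ) * N)) -
      (if N < N₀ then 2 else 0) ≤ (∑ n ∈ Icc 1 N, (P4 n : ℝ)) * (1 / ((N : ℝ) * (N + 1))) := by
    intro N hN
    have hN0 : (0 : ℝ) < N := by exact_mod_cast (by omega : 0 < N)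
    have hN1 : (1 : ℝ) ≤ N := by exact_mod_cast hN
    have e0 : 1 / ((N : ℝ) * (N + 1)) = 1 / N - 1 / (N + 1) := by field_simp; ring
    have e1 : (0 : ℝ) < 1 / ((N : ℝ) * (N + 1)) := by positivity
    have e2 : (N : ℝ) * (1 / ((N : ℝ) * (N + 1))) = 1 / (N + 1) := by field_simp
    have e3 : 1 / (N : ℝ) - 1 / ((N : ℝ) * N) ≤ 1 / ((N : ℝ) + 1) := by
      rw [div_sub_div _ _ hN0.ne' (by positivity), div_le_div_iff₀ (by positivity) (by positivity)]
      nlinarith [mul_pos hN0 hN0]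
    have e4 : 1 / (N : ℝ) ≤ 1 := by rw [div_le_one hN0]; exact hN1
    have e5 : 0 ≤ 1 / ((N : ℝ) * N) := by positivity
    have e6 : 1 / ((N : ℝ) + 1) ≤ 1 := by rw [div_le_one (by positivity)]; linarith
    split_ifs with h
    · have h3 := mul_le_mul_of_nonneg_right (h1 N) e1.le
      nlinarith
    · have h3 := mul_le_mul_of_nonneg_right (hcon N (by omega)).le e1.le
      nlinarith
  obtain ⟨X₂, hX₂⟩ := Filter.eventually_atTop.1 (hlog.eventually_ge_atTop ((2 * (N₀ : ℝ) + 10) / 0.00004))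
  set X : ℕ := X₁ + X₂ + 1 with hX
  have h3 := hX₁ X (by omega)
  have h4 := hX₂ X (by omega)
  rw [LS_abel] at h3
  have h5 : ∑ N ∈ Icc 1 X, (0.4734 * (1 / (N : ℝ)) - 0.4734 * (1 / ((N : ℝ) * N)) - (if N < N₀ then 2 else 0)) ≤
      ∑ N ∈ Icc 1 X, (∑ n ∈ Icc 1 N, (P4 n : ℝ)) * (1 / ((N : ℝ) * (N + 1))) :=
    sum_le_sum fun N hN => h2 N (mem_Icc.1 hN).1
  rw [sum_sub_distrib, sum_sub_distrib, ← mul_sum, ← mul_sum] at h5
  have h6 := sum_sq X
  have h7 : ∑ N ∈ Icc 1 X, (if N < N₀ then (2 : ℝ) else 0) ≤ 2 * N₀ := by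
    rw [← sum_filter, sum_const, nsmul_eq_mul]
    have h8 : ((Icc 1 X).filter (fun N => N < N₀)).card ≤ N₀ := by
      refine (card_le_card (t := range N₀) ?_).trans (by simp)
      intro N hN
      rw [mem_filter] at hN
      exact mem_range.2 hN.2
    have h9 : (((Icc 1 X).filter (fun N => N < N₀)).card : ℝ) ≤ N₀ := by exact_mod_cast h8
    linarith
  have h8 : Real.log X ≤ ∑ N ∈ Icc 1 X, (1 : ℝ) / N := by
    have h := log_add_one_le_harmonic X
    rw [harmonic_eq_sum_Icc] at h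
    push_cast at h
    have h9 : Real.log X ≤ Real.log ((X : ℝ) + 1) := by
      apply Real.log_le_log
      · exact_mod_cast (by omega : 0 < X)
      · linarith
    refine h9.trans (h.trans (le_of_eq ?_))
    exact sum_congr rfl fun n _ => by rw [one_div]
  have h9 : -1 ≤ (∑ n ∈ Icc 1 X, (P4 n : ℝ)) / (X + 1) := by
    rw [le_div_iff₀ (by positivity)]
    have := h1 X
    linarith
  rw [div_le_iff₀ (by norm_num)] at h4
  linarith

end Pool.Agent.E8helper15.LP
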