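import Pool.Agent.E8helper15.LP.Cert

/-!
The pointwise inequality which follows from the certificate.
-/

set_option autoImplicit false

namespace Pool.Agent.E8helper15.LP

lemma land_mod (c k : ℕ) : Nat.land c (2 ^ k - 1) = c % 2 ^ k := Nat.and_two_pow_sub_one_eq_mod c k

lemma shr_div (c k : ℕ) : Nat.shiftRight c k = c / 2 ^ k := Nat.shiftRight_eq_div_pow c k

lemma bt_eq (c i : ℕ) : bt c i = c / 2 ^ i % 2 := by
  unfold bt
  rw [shr_div]
  exact land_mod _ 1

lemma bt_le (c i : ℕ) : bt c i ≤ 1 := by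
  rw [bt_eq]
  omega

/-- the sign number `i` -/
def sg (c i : ℕ) : ℤ := 1 - 2 * (bt c i : ℤ)

lemma bt_cases (c i : ℕ) : bt c i = 0 ∨ bt c i = 1 := by
  have := bt_le c i
  omega

lemma beq10 : Nat.beq 1 0 = false := rfl
lemma beq01 : Nat.beq 0 1 = false := rfl
lemma beq00 : Nat.beq 0 0 = true := rfl
lemma beq11 : Nat.beq 1 1 = true := rfl

lemma acc_eq (c : ℕ) (l : List (ℕ × ℕ × ℕ)) :
    (accP c l : ℤ) - accM c l = (l.map (fun x => ((x.2.1 : ℤ) - x.2.2) * sg c x.1)).sum := by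
  induction l with
  | nil => simp [accP, accM]
  | cons x l ih =>
    obtain ⟨i, p, m⟩ := x
    simp only [accP, accM, List.map_cons, List.sum_cons]
    rw [← ih]
    unfold sg
    rcases bt_cases c i with h | h <;> rw [h] <;> simp [beq10] <;> ring

lemma acc2_eq (c : ℕ) (l : List (ℕ × ℕ × ℕ × ℕ)) :
    (accP2 c l : ℤ) - accM2 c l = (l.map (fun x => ((x.2.2.1 : ℤ) - x.2.2.2) * (sg c x.1 * sg c x.2.1))).sum := by
  induction l with
  | nil => simp [accP2, accM2]
  | cons x l ih =>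
    obtain ⟨i, j, p, m⟩ := x
    simp only [accP2, accM2, List.map_cons, List.sum_cons]
    rw [← ih]
    unfold sg
    rcases bt_cases c i with h | h <;> rcases bt_cases c j with h' | h' <;> rw [h, h'] <;>
      simp [beq10, beq01] <;> ring

lemma par_eq (c i : ℕ) : 2 * (par c i : ℤ) - 1 = sg c i * sg c (i + 1) * sg c (i + 2) * sg c (i + 3) := by
  unfold par sg
  rcases bt_cases c i with h | h <;> rcases bt_cases c (i + 1) with h1 | h1 <;>
    rcases bt_cases c (i + 2) with h2 | h2 <;> rcases bt_cases c (i + 3) with h3 | h3 <;>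
    rw [h, h1, h2, h3] <;> decide

lemma leaf_spec {iA c3 d4 iB e t ql qr : ℕ} (h : leaf iA c3 d4 iB e t ql qr = true) :
    ql + (tab U iA + (tab V2 c3 + tab V3 d4)) ≤ qr + (tab U iB + (2 * tab V2 (1023 - e) + 3 * tab V3 (127 - t))) := by
  unfold leaf at h
  exact Nat.le_of_ble_eq_true h

/-- the sum with a bit -/
lemma l18_spec {p18 m18 iA c3 d4 iB e t ql qr : ℕ} (h : l18 p18 m18 iA c3 d4 iB e t ql qr = true) {b : ℕ}
    (hb : b ≤ 1) : leaf iA c3 d4 (iB + 1024 * b) (e + 512 * b) (t + 64 * b) (ql + ((1 - b) * m18 + b * p18))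
      (qr + ((1 - b) * p18 + b * m18)) = true := by
  unfold l18 at h
  rw [Bool.and_eq_true] at h
  rcases (by omega : b = 0 ∨ b = 1) with rfl | rfl
  · simpa using h.1
  · simpa using h.2

lemma l16_spec {p16 m16 p18 m18 iA c3 d4 iB e t ql qr : ℕ} (h : l16 p16 m16 p18 m18 iA c3 d4 iB e t ql qr = true)
    {b : ℕ} (hb : b ≤ 1) : l18 p18 m18 iA c3 d4 (iB + 512 * b) (e + 256 * b) t (ql + ((1 - b) * m16 + b * p16))
      (qr + ((1 - b) * p16 + b * m16)) = true := by
  unfold l16 at h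
  rw [Bool.and_eq_true] at h
  rcases (by omega : b = 0 ∨ b = 1) with rfl | rfl
  · simpa using h.1
  · simpa using h.2

lemma l15_spec {p15 m15 p16 m16 p18 m18 iA c3 d4 iB e t ql qr : ℕ}
    (h : l15 p15 m15 p16 m16 p18 m18 iA c3 d4 iB e t ql qr = true)
    {b : ℕ} (hb : b ≤ 1) : l16 p16 m16 p18 m18 iA c3 d4 (iB + 256 * b) e (t + 32 * b)
      (ql + ((1 - b) * m15 + b * p15)) (qr + ((1 - b) * p15 + b * m15)) = true := by
  unfold l15 at h
  rw [Bool.and_eq_true] at h
  rcases (by omega : b = 0 ∨ b = 1) with rfl | rfl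
  · simpa using h.1
  · simpa using h.2

lemma l14_spec {p14 m14 p15 m15 p16 m16 p18 m18 iA c3 d4 iB e t ql qr : ℕ}
    (h : l14 p14 m14 p15 m15 p16 m16 p18 m18 iA c3 d4 iB e t ql qr = true)
    {b : ℕ} (hb : b ≤ 1) : l15 p15 m15 p16 m16 p18 m18 iA c3 d4 (iB + 128 * b) (e + 128 * b) t
      (ql + ((1 - b) * m14 + b * p14)) (qr + ((1 - b) * p14 + b * m14)) = true := by
  unfold l14 at h
  rw [Bool.and_eq_true] at h
  rcases (by omega : b = 0 ∨ b = 1) with rfl | rfl
  · simpa using h.1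
  · simpa using h.2

lemma l12_spec {p12 m12 p14 m14 p15 m15 p16 m16 p18 m18 iA c3 d4 iB e t ql qr : ℕ}
    (h : l12 p12 m12 p14 m14 p15 m15 p16 m16 p18 m18 iA c3 d4 iB e t ql qr = true)
    {b : ℕ} (hb : b ≤ 1) : l14 p14 m14 p15 m15 p16 m16 p18 m18 (iA + 1024 * b) (c3 + 512 * b) d4 (iB + 64 * b)
      (e + 64 * b) (t + 16 * b) (ql + ((1 - b) * m12 + b * p12)) (qr + ((1 - b) * p12 + b * m12)) = true := by
  unfold l12 at h
  rw [Bool.and_eq_true] at h
  rcases (by omega : b = 0 ∨ b = 1) with rfl | rfl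
  · simpa using h.1
  · simpa using h.2

lemma l11_spec {p11 m11 p12 m12 p14 m14 p15 m15 p16 m16 p18 m18 iA c3 d4 iB e t ql qr : ℕ}
    (h : l11 p11 m11 p12 m12 p14 m14 p15 m15 p16 m16 p18 m18 iA c3 d4 iB e t ql qr = true)
    {b : ℕ} (hb : b ≤ 1) : l12 p12 m12 p14 m14 p15 m15 p16 m16 p18 m18 iA (c3 + 256 * b) d4 (iB + 32 * b)
      e t (ql + ((1 - b) * m11 + b * p11)) (qr + ((1 - b) * p11 + b * m11)) = true := by
  unfold l11 at h
  rw [Bool.and_eq_true] at h
  rcases (by omega : b = 0 ∨ b = 1) with rfl | rfl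
  · simpa using h.1
  · simpa using h.2

lemma l10_spec {p10 m10 p11 m11 p12 m12 p14 m14 p15 m15 p16 m16 p18 m18 iA c3 d4 iB e t ql qr : ℕ}
    (h : l10 p10 m10 p11 m11 p12 m12 p14 m14 p15 m15 p16 m16 p18 m18 iA c3 d4 iB e t ql qr = true)
    {b : ℕ} (hb : b ≤ 1) : l11 p11 m11 p12 m12 p14 m14 p15 m15 p16 m16 p18 m18 (iA + 512 * b) (c3 + 128 * b)
      (d4 + 64 * b) (iB + 16 * b) (e + 32 * b) t (ql + ((1 - b) * m10 + b * p10))
      (qr + ((1 - b) * p10 + b * m10)) = true := by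
  unfold l10 at h
  rw [Bool.and_eq_true] at h
  rcases (by omega : b = 0 ∨ b = 1) with rfl | rfl
  · simpa using h.1
  · simpa using h.2

lemma bit_sum {b p m : ℕ} (hb : b ≤ 1) : (((1 - b) * p + b * m : ℕ) : ℤ) - (((1 - b) * m + b * p : ℕ) : ℤ) =
    ((p : ℤ) - m) * (1 - 2 * b) := by
  rcases (by omega : b = 0 ∨ b = 1) with rfl | rfl
  · simp
  · simp

/-- the terms of the quadratic form with one sign outside of the first ten -/
def lin (c : ℕ) (l : List (ℕ × ℕ × ℕ)) : ℤ := (l.map (fun x => ((x.2.1 : ℤ) - x.2.2) * sg c x.1)).sum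

def quad (c : ℕ) (l : List (ℕ × ℕ × ℕ × ℕ)) : ℤ :=
  (l.map (fun x => ((x.2.2.1 : ℤ) - x.2.2.2) * (sg c x.1 * sg c x.2.1))).sum

theorem outer_spec {c : ℕ} (hc : c < 1024) {b10 b11 b12 b14 b15 b16 b18 : ℕ} (h10 : b10 ≤ 1) (h11 : b11 ≤ 1)
    (h12 : b12 ≤ 1) (h14 : b14 ≤ 1) (h15 : b15 ≤ 1) (h16 : b16 ≤ 1) (h18 : b18 ≤ 1) :
    20000 * (sg c 0 * sg c 1 * sg c 2 * sg c 3 + sg c 1 * sg c 2 * sg c 3 * sg c 4 +
        sg c 2 * sg c 3 * sg c 4 * sg c 5 + sg c 3 * sg c 4 * sg c 5 * sg c 6 + sg c 4 * sg c 5 * sg c 6 * sg c 7 +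
        sg c 5 * sg c 6 * sg c 7 * sg c 8) ≤
      56802 + (quad c Q1 + lin c Y10 * (1 - 2 * b10) + lin c Y11 * (1 - 2 * b11) + lin c Y12 * (1 - 2 * b12) +
        lin c Y14 * (1 - 2 * b14) + lin c Y15 * (1 - 2 * b15) + lin c Y16 * (1 - 2 * b16) +
        lin c Y18 * (1 - 2 * b18)) +
      ((tab U (c / 64 + 16 * b10 + 32 * b11 + 64 * b12 + 128 * b14 + 256 * b15 + 512 * b16 + 1024 * b18) : ℤ) -
        tab U (c % 128 + 128 * (c / 256 % 4) + 512 * b10 + 1024 * b12)) +
      (2 * (tab V2 (1023 - (c % 2 + (2 * (c / 4 % 2) + (4 * (c / 16 % 2) + (8 * (c / 64 % 2) +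
          16 * (c / 256 % 2)))) + 32 * b10 + 64 * b12 + 128 * b14 + 256 * b16 + 512 * b18)) : ℤ) -
        tab V2 c - tab V2 (c / 8 + 128 * b10 + 256 * b11 + 512 * b12)) +
      (3 * (tab V3 (127 - (c % 2 + (2 * (c / 8 % 2) + (4 * (c / 64 % 2) + 8 * (c / 512 % 2))) + 16 * b12 +
          32 * b15 + 64 * b18)) : ℤ) -
        tab V3 (c % 128) - tab V3 (c / 4 % 128) - tab V3 (c / 16 + 64 * b10)) := by
  have h0 := all_outer c hc
  unfold outer at h0
  have h1 := leaf_spec (l18_spec (l16_spec (l15_spec (l14_spec (l12_spec (l11_spec (l10_spec h0 h10) h11) h12) h14)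
    h15) h16) h18)
  have e1 : Nat.land c 127 = c % 128 := land_mod c 7
  have e2 : Nat.land (Nat.shiftRight c 8) 3 = c / 256 % 4 := by
    rw [shr_div]
    exact land_mod _ 2
  have e3 : Nat.land (Nat.shiftRight c 2) 127 = c / 4 % 128 := by
    rw [shr_div]
    exact land_mod _ 7
  rw [e1, e2, e3, shr_div, shr_div, shr_div] at h1
  simp only [bt_eq] at h1
  norm_num at h1
  have q1 := acc2_eq c Q1
  have y10 := acc_eq c Y10
  have y11 := acc_eq c Y11
  have y12 := acc_eq c Y12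
  have y14 := acc_eq c Y14
  have y15 := acc_eq c Y15
  have y16 := acc_eq c Y16
  have y18 := acc_eq c Y18
  have z10 := bit_sum (p := accP c Y10) (m := accM c Y10) h10
  have z11 := bit_sum (p := accP c Y11) (m := accM c Y11) h11
  have z12 := bit_sum (p := accP c Y12) (m := accM c Y12) h12
  have z14 := bit_sum (p := accP c Y14) (m := accM c Y14) h14
  have z15 := bit_sum (p := accP c Y15) (m := accM c Y15) h15
  have z16 := bit_sum (p := accP c Y16) (m := accM c Y16) h16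
  have z18 := bit_sum (p := accP c Y18) (m := accM c Y18) h18
  rw [y10] at z10
  rw [y11] at z11
  rw [y12] at z12
  rw [y14] at z14
  rw [y15] at z15
  rw [y16] at z16
  rw [y18] at z18
  have n0 := par_eq c 0
  have n1 := par_eq c 1
  have n2 := par_eq c 2
  have n3 := par_eq c 3
  have n4 := par_eq c 4
  have n5 := par_eq c 5
  simp only [Nat.zero_add, Nat.reduceAdd] at n0 n1 n2 n3 n4 n5
  rw [← n0, ← n1, ← n2, ← n3, ← n4, ← n5]
  have hn : npos c = par c 0 + par c 1 + par c 2 + par c 3 + par c 4 + par c 5 := rfl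
  unfold quad lin
  generalize (1 - b10) * accM c Y10 + b10 * accP c Y10 = M10 at h1 z10
  generalize (1 - b10) * accP c Y10 + b10 * accM c Y10 = P10 at h1 z10
  generalize (1 - b11) * accM c Y11 + b11 * accP c Y11 = M11 at h1 z11
  generalize (1 - b11) * accP c Y11 + b11 * accM c Y11 = P11 at h1 z11
  generalize (1 - b12) * accM c Y12 + b12 * accP c Y12 = M12 at h1 z12
  generalize (1 - b12) * accP c Y12 + b12 * accM c Y12 = P12 at h1 z12
  generalize (1 - b14) * accM c Y14 + b14 * accP c Y14 = M14 at h1 z14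
  generalize (1 - b14) * accP c Y14 + b14 * accM c Y14 = P14 at h1 z14
  generalize (1 - b15) * accM c Y15 + b15 * accP c Y15 = M15 at h1 z15
  generalize (1 - b15) * accP c Y15 + b15 * accM c Y15 = P15 at h1 z15
  generalize (1 - b16) * accM c Y16 + b16 * accP c Y16 = M16 at h1 z16
  generalize (1 - b16) * accP c Y16 + b16 * accM c Y16 = P16 at h1 z16
  generalize (1 - b18) * accM c Y18 + b18 * accP c Y18 = M18 at h1 z18
  generalize (1 - b18) * accP c Y18 + b18 * accM c Y18 = P18 at h1 z18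
  rw [hn] at h1
  zify at h1
  linarith

section Seq

variable (x : ℕ → ℤ)

/-- the bit of the sign `x m` -/
def be (m : ℕ) : ℕ := if x m = 1 then 0 else 1

def I10 (m : ℕ) : ℕ := be x m + 2 * be x (m + 1) + 4 * be x (m + 2) + 8 * be x (m + 3) + 16 * be x (m + 4) +
  32 * be x (m + 5) + 64 * be x (m + 6) + 128 * be x (m + 7) + 256 * be x (m + 8) + 512 * be x (m + 9)

def I7 (m : ℕ) : ℕ := be x m + 2 * be x (m + 1) + 4 * be x (m + 2) + 8 * be x (m + 3) + 16 * be x (m + 4) +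
  32 * be x (m + 5) + 64 * be x (m + 6)

def IA (m : ℕ) : ℕ := be x m + 2 * be x (m + 1) + 4 * be x (m + 2) + 8 * be x (m + 3) + 16 * be x (m + 4) +
  32 * be x (m + 5) + 64 * be x (m + 6) + 128 * be x (m + 8) + 256 * be x (m + 9) + 512 * be x (m + 10) +
  1024 * be x (m + 12)

/-- the quadratic form -/
def qf (m : ℕ) : ℤ :=
  (Q1.map (fun y => ((y.2.2.1 : ℤ) - y.2.2.2) * (x (m + y.1) * x (m + y.2.1)))).sum +
  (Y10.map (fun y => ((y.2.1 : ℤ) - y.2.2) * (x (m + y.1) * x (m + 10)))).sum +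
  (Y11.map (fun y => ((y.2.1 : ℤ) - y.2.2) * (x (m + y.1) * x (m + 11)))).sum +
  (Y12.map (fun y => ((y.2.1 : ℤ) - y.2.2) * (x (m + y.1) * x (m + 12)))).sum +
  (Y14.map (fun y => ((y.2.1 : ℤ) - y.2.2) * (x (m + y.1) * x (m + 14)))).sum +
  (Y15.map (fun y => ((y.2.1 : ℤ) - y.2.2) * (x (m + y.1) * x (m + 15)))).sum +
  (Y16.map (fun y => ((y.2.1 : ℤ) - y.2.2) * (x (m + y.1) * x (m + 16)))).sum +
  (Y18.map (fun y => ((y.2.1 : ℤ) - y.2.2) * (x (m + y.1) * x (m + 18)))).sum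

lemma be_le (m : ℕ) : be x m ≤ 1 := by
  unfold be
  split_ifs <;> omega

variable {x}

lemma x_be (hx : ∀ m, x m = 1 ∨ x m = -1) (m : ℕ) : x m = 1 - 2 * (be x m : ℤ) := by
  unfold be
  rcases hx m with h | h <;> rw [h] <;> simp

lemma be_neg (hx : ∀ m, x m = 1 ∨ x m = -1) {m k : ℕ} (h : x m = -x k) : be x m = 1 - be x k := by
  unfold be
  rcases hx k with h1 | h1 <;> rw [h, h1] <;> simp

lemma dig10 (m i : ℕ) (hi : i < 10) : I10 x m / 2 ^ i % 2 = be x (m + i) := by
  have h0 := be_le x m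
  have h1 := be_le x (m + 1)
  have h2 := be_le x (m + 2)
  have h3 := be_le x (m + 3)
  have h4 := be_le x (m + 4)
  have h5 := be_le x (m + 5)
  have h6 := be_le x (m + 6)
  have h7 := be_le x (m + 7)
  have h8 := be_le x (m + 8)
  have h9 := be_le x (m + 9)
  unfold I10
  interval_cases i <;> simp only [Nat.add_zero, Nat.reducePow] <;> omega

lemma sg_I10 (hx : ∀ m, x m = 1 ∨ x m = -1) (m i : ℕ) (hi : i < 10) : sg (I10 x m) i = x (m + i) := by
  unfold sg
  rw [bt_eq, x_be hx (m + i), dig10 m i hi]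

lemma split7 (m : ℕ) : I10 x m = I7 x m + 128 * be x (m + 7) + 256 * be x (m + 8) + 512 * be x (m + 9) := rfl

lemma I7_lt (m : ℕ) : I7 x m < 128 := by
  have h0 := be_le x m
  have h1 := be_le x (m + 1)
  have h2 := be_le x (m + 2)
  have h3 := be_le x (m + 3)
  have h4 := be_le x (m + 4)
  have h5 := be_le x (m + 5)
  have h6 := be_le x (m + 6)
  unfold I7
  omega

/-- the low three signs and the next seven -/
lemma split3 (m : ℕ) : I10 x m = (be x m + 2 * be x (m + 1) + 4 * be x (m + 2)) + 8 * I7 x (m + 3) := by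
  unfold I10 I7
  simp only [Nat.add_assoc, Nat.reduceAdd]
  ring

lemma split2 (m : ℕ) : I10 x m = (be x m + 2 * be x (m + 1)) + 4 * I7 x (m + 2) + 512 * be x (m + 9) := by
  unfold I10 I7
  simp only [Nat.add_assoc, Nat.reduceAdd]
  ring

/-- six signs -/
def I6 (x : ℕ → ℤ) (m : ℕ) : ℕ := be x m + 2 * be x (m + 1) + 4 * be x (m + 2) + 8 * be x (m + 3) + 16 * be x (m + 4) +
  32 * be x (m + 5)

/-- four signs -/
def I4 (x : ℕ → ℤ) (m : ℕ) : ℕ := be x m + 2 * be x (m + 1) + 4 * be x (m + 2) + 8 * be x (m + 3)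

lemma I6_lt (m : ℕ) : I6 x m < 64 := by
  have h0 := be_le x m
  have h1 := be_le x (m + 1)
  have h2 := be_le x (m + 2)
  have h3 := be_le x (m + 3)
  have h4 := be_le x (m + 4)
  have h5 := be_le x (m + 5)
  unfold I6
  omega

lemma I4_lt (m : ℕ) : I4 x m < 16 := by
  have h0 := be_le x m
  have h1 := be_le x (m + 1)
  have h2 := be_le x (m + 2)
  have h3 := be_le x (m + 3)
  unfold I4
  omega

lemma split4 (m : ℕ) : I10 x m = I4 x m + 16 * I6 x (m + 4) := by
  unfold I10 I4 I6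
  simp only [Nat.add_assoc, Nat.reduceAdd]
  ring

lemma split6 (m : ℕ) : I10 x m = I6 x m + 64 * I4 x (m + 6) := by
  unfold I10 I4 I6
  simp only [Nat.add_assoc, Nat.reduceAdd]
  ring

lemma lin_eq (hx : ∀ m, x m = 1 ∨ x m = -1) (m b : ℕ) (l : List (ℕ × ℕ × ℕ)) (hl : ∀ y ∈ l, y.1 < 10) :
    lin (I10 x m) l * (1 - 2 * (be x (m + b) : ℤ)) =
      (l.map (fun y => ((y.2.1 : ℤ) - y.2.2) * (x (m + y.1) * x (m + b)))).sum := by
  unfold lin
  rw [← x_be hx (m + b), ← List.sum_map_mul_right]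
  congr 1
  apply List.map_congr_left
  intro y hy
  rw [sg_I10 hx m y.1 (hl y hy)]
  ring

lemma quad_eq (hx : ∀ m, x m = 1 ∨ x m = -1) (m : ℕ) (l : List (ℕ × ℕ × ℕ × ℕ)) (hl : ∀ y ∈ l, y.1 < 10 ∧ y.2.1 < 10) :
    quad (I10 x m) l = (l.map (fun y => ((y.2.2.1 : ℤ) - y.2.2.2) * (x (m + y.1) * x (m + y.2.1)))).sum := by
  unfold quad
  congr 1
  apply List.map_congr_left
  intro y hy
  rw [sg_I10 hx m y.1 (hl y hy).1, sg_I10 hx m y.2.1 (hl y hy).2]

/-- **The pointwise inequality.** -/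
theorem pointwise (hx : ∀ m, x m = 1 ∨ x m = -1) (h2 : ∀ m, 1 ≤ m → x (2 * m) = -x m)
    (h3 : ∀ m, 1 ≤ m → x (3 * m) = -x m) (n : ℕ) (hn : 1 ≤ n) :
    20000 * ∑ r ∈ Finset.range 6, x (6 * n + r) * x (6 * n + r + 1) * x (6 * n + r + 2) * x (6 * n + r + 3) ≤
      56802 + qf x (6 * n) + ((tab U (IA x (6 * (n + 1))) : ℤ) - tab U (IA x (6 * n))) +
      (2 * (tab V2 (I10 x (3 * n)) : ℤ) - tab V2 (I10 x (6 * n)) - tab V2 (I10 x (6 * n + 3))) +
      (3 * (tab V3 (I7 x (2 * n)) : ℤ) - tab V3 (I7 x (6 * n)) - tab V3 (I7 x (6 * n + 2)) -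
        tab V3 (I7 x (6 * n + 4))) := by
  set m : ℕ := 6 * n with hm
  have hb := be_le x
  have hc : I10 x m < 1024 := by
    have h1 := I7_lt (x := x) m
    have h7 := hb (m + 7)
    have h8 := hb (m + 8)
    have h9 := hb (m + 9)
    rw [split7]
    generalize I7 x m = A at *
    omega
  have key := outer_spec hc (hb (m + 10)) (hb (m + 11)) (hb (m + 12)) (hb (m + 14)) (hb (m + 15)) (hb (m + 16))
    (hb (m + 18))
  rw [quad_eq hx m Q1 (by decide), lin_eq hx m 10 Y10 (by decide), lin_eq hx m 11 Y11 (by decide),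
    lin_eq hx m 12 Y12 (by decide), lin_eq hx m 14 Y14 (by decide), lin_eq hx m 15 Y15 (by decide),
    lin_eq hx m 16 Y16 (by decide), lin_eq hx m 18 Y18 (by decide)] at key
  rw [sg_I10 hx m 0 (by omega), sg_I10 hx m 1 (by omega), sg_I10 hx m 2 (by omega), sg_I10 hx m 3 (by omega),
    sg_I10 hx m 4 (by omega), sg_I10 hx m 5 (by omega), sg_I10 hx m 6 (by omega), sg_I10 hx m 7 (by omega),
    sg_I10 hx m 8 (by omega)] at key
  have g0 := hb m
  have g1 := hb (m + 1)
  have g2 := hb (m + 2)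
  have g3 := hb (m + 3)
  have g4 := hb (m + 4)
  have g5 := hb (m + 5)
  have g6 := hb (m + 6)
  have g7 := hb (m + 7)
  have g8 := hb (m + 8)
  have g9 := hb (m + 9)
  have g10 := hb (m + 10)
  have g11 := hb (m + 11)
  have g12 := hb (m + 12)
  have g14 := hb (m + 14)
  have g15 := hb (m + 15)
  have g16 := hb (m + 16)
  have g18 := hb (m + 18)
  -- the indices
  have i1 : I10 x m / 64 + 16 * be x (m + 10) + 32 * be x (m + 11) + 64 * be x (m + 12) + 128 * be x (m + 14) +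
      256 * be x (m + 15) + 512 * be x (m + 16) + 1024 * be x (m + 18) = IA x (6 * (n + 1)) := by
    have e1 : I10 x m / 64 = I4 x (m + 6) := by
      have := I6_lt (x := x) m
      rw [split6]
      generalize I6 x m = A at *
      generalize I4 x (m + 6) = B at *
      omega
    rw [e1, show 6 * (n + 1) = m + 6 by omega]
    unfold I4 IA
    simp only [Nat.add_assoc, Nat.reduceAdd]
  have i2 : I10 x m % 128 + 128 * (I10 x m / 256 % 4) + 512 * be x (m + 10) + 1024 * be x (m + 12) = IA x m := by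
    have e1 : I10 x m % 128 = I7 x m := by
      have := I7_lt (x := x) m
      rw [split7]
      generalize I7 x m = A at *
      omega
    have e2 : I10 x m / 256 % 4 = be x (m + 8) + 2 * be x (m + 9) := by
      have := I7_lt (x := x) m
      rw [split7]
      generalize I7 x m = A at *
      clear g0 g1 g2 g3 g4 g5 g6 g10 g11 g12 g14 g15 g16 g18 key
      omega
    rw [e1, e2]
    unfold I7 IA
    ring
  have i3 : I10 x m / 8 + 128 * be x (m + 10) + 256 * be x (m + 11) + 512 * be x (m + 12) = I10 x (m + 3) := by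
    have e1 : I10 x m / 8 = I7 x (m + 3) := by
      rw [split3]
      generalize I7 x (m + 3) = A at *
      clear g3 g4 g5 g6 g7 g8 g9 g10 g11 g12 g14 g15 g16 g18 key
      omega
    rw [e1]
    rfl
  have i4 : I10 x m % 128 = I7 x m := by
    have := I7_lt (x := x) m
    rw [split7]
    generalize I7 x m = A at *
    omega
  have i5 : I10 x m / 4 % 128 = I7 x (m + 2) := by
    have := I7_lt (x := x) (m + 2)
    rw [split2]
    generalize I7 x (m + 2) = A at *
    clear g2 g3 g4 g5 g6 g7 g8 g10 g11 g12 g14 g15 g16 g18 key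
    omega
  have i6 : I10 x m / 16 + 64 * be x (m + 10) = I7 x (m + 4) := by
    have e1 : I10 x m / 16 = I6 x (m + 4) := by
      have := I4_lt (x := x) m
      rw [split4]
      generalize I4 x m = A at *
      generalize I6 x (m + 4) = B at *
      omega
    rw [e1]
    rfl
  have d2 : ∀ i, be x (3 * n + i) + be x (m + 2 * i) = 1 := by
    intro i
    have := be_neg hx (h2 (3 * n + i) (by omega))
    rw [show m + 2 * i = 2 * (3 * n + i) by omega, this]
    have := hb (3 * n + i)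
    omega
  have d3 : ∀ i, be x (2 * n + i) + be x (m + 3 * i) = 1 := by
    intro i
    have := be_neg hx (h3 (2 * n + i) (by omega))
    rw [show m + 3 * i = 3 * (2 * n + i) by omega, this]
    have := hb (2 * n + i)
    omega
  have t0 : I10 x m % 2 = be x m := by simpa using dig10 (x := x) m 0 (by omega)
  have t2 : I10 x m / 4 % 2 = be x (m + 2) := dig10 (x := x) m 2 (by omega)
  have t3 : I10 x m / 8 % 2 = be x (m + 3) := dig10 (x := x) m 3 (by omega)
  have t4 : I10 x m / 16 % 2 = be x (m + 4) := dig10 (x := x) m 4 (by omega)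
  have t6 : I10 x m / 64 % 2 = be x (m + 6) := dig10 (x := x) m 6 (by omega)
  have t8 : I10 x m / 256 % 2 = be x (m + 8) := dig10 (x := x) m 8 (by omega)
  have t9 : I10 x m / 512 % 2 = be x (m + 9) := dig10 (x := x) m 9 (by omega)
  have i7 : 1023 - (I10 x m % 2 + (2 * (I10 x m / 4 % 2) + (4 * (I10 x m / 16 % 2) + (8 * (I10 x m / 64 % 2) +
      16 * (I10 x m / 256 % 2)))) + 32 * be x (m + 10) + 64 * be x (m + 12) + 128 * be x (m + 14) +
      256 * be x (m + 16) + 512 * be x (m + 18)) = I10 x (3 * n) := by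
    have e0 := d2 0
    have e1 := d2 1
    have e2 := d2 2
    have e3 := d2 3
    have e4 := d2 4
    have e5 := d2 5
    have e6 := d2 6
    have e7 := d2 7
    have e8 := d2 8
    have e9 := d2 9
    simp only [Nat.reduceMul, Nat.add_zero, Nat.mul_zero, Nat.mul_one] at e0 e1 e2 e3 e4 e5 e6 e7 e8 e9
    rw [t0, t2, t4, t6, t8]
    apply Nat.sub_eq_of_eq_add
    have e10 : I10 x (3 * n) = be x (3 * n) + 2 * be x (3 * n + 1) + 4 * be x (3 * n + 2) + 8 * be x (3 * n + 3) +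
      16 * be x (3 * n + 4) + 32 * be x (3 * n + 5) + 64 * be x (3 * n + 6) + 128 * be x (3 * n + 7) +
      256 * be x (3 * n + 8) + 512 * be x (3 * n + 9) := rfl
    rw [e10]
    linarith
  have i8 : 127 - (I10 x m % 2 + (2 * (I10 x m / 8 % 2) + (4 * (I10 x m / 64 % 2) + 8 * (I10 x m / 512 % 2))) +
      16 * be x (m + 12) + 32 * be x (m + 15) + 64 * be x (m + 18)) = I7 x (2 * n) := by
    have e0 := d3 0
    have e1 := d3 1
    have e2 := d3 2
    have e3 := d3 3
    have e4 := d3 4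
    have e5 := d3 5
    have e6 := d3 6
    simp only [Nat.reduceMul, Nat.add_zero, Nat.mul_zero, Nat.mul_one] at e0 e1 e2 e3 e4 e5 e6
    rw [t0, t3, t6, t9]
    apply Nat.sub_eq_of_eq_add
    have e10 : I7 x (2 * n) = be x (2 * n) + 2 * be x (2 * n + 1) + 4 * be x (2 * n + 2) + 8 * be x (2 * n + 3) +
      16 * be x (2 * n + 4) + 32 * be x (2 * n + 5) + 64 * be x (2 * n + 6) := rfl
    rw [e10]
    linarith
  rw [i1, i2, i3, i4, i5, i6, i7, i8] at key
  have hs : ∑ r ∈ Finset.range 6, x (m + r) * x (m + r + 1) * x (m + r + 2) * x (m + r + 3) =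
      x (m + 0) * x (m + 1) * x (m + 2) * x (m + 3) + x (m + 1) * x (m + 2) * x (m + 3) * x (m + 4) +
      x (m + 2) * x (m + 3) * x (m + 4) * x (m + 5) + x (m + 3) * x (m + 4) * x (m + 5) * x (m + 6) +
      x (m + 4) * x (m + 5) * x (m + 6) * x (m + 7) + x (m + 5) * x (m + 6) * x (m + 7) * x (m + 8) := by
    simp only [Finset.sum_range_succ, Finset.sum_range_zero, Nat.add_assoc, Nat.reduceAdd, zero_add]
  rw [hs]
  unfold qf
  linarith

end Seq

end Pool.Agent.E8helper15.LP
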